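import Mathlib
import Pool.Agent.Helper531.BCW2

set_option autoImplicit false

namespace Pool.Agent.Results.MP_83608f_co.FewTransitiveTriangles

/-- The number of transitive triangles of a digraph: triples `(x, y, z)` with arcs `x → y`,
`y → z` and `x → z`. -/
noncomputable def transTriangles {V : Type} (G : Digraph V) : ℕ :=
  Nat.card {t : V × V × V // G.Adj t.1 t.2.1 ∧ G.Adj t.2.1 t.2.2 ∧ G.Adj t.1 t.2.2}

theorem result (V : Type) [Finite V] (G : Digraph V) (k g : ℕ)
    (hk : 1 ≤ k) (hloop : ∀ v, ¬ G.Adj v v)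
    (hout : ∀ v, Nat.card {u // G.Adj v u} = k)
    (hin : ∀ v, Nat.card {u // G.Adj u v} = k)
    (hg : 1 ≤ g)
    (hex : ∃ c : ℕ → V, (∀ i, c (i + g) = c i) ∧ (∀ i, G.Adj (c i) (c (i + 1))) ∧
          Set.InjOn c (Set.Iio g))
    (hno : ∀ m : ℕ, 1 ≤ m → m < g →
          ¬ ∃ c : ℕ → V, (∀ i, c (i + m) = c i) ∧ (∀ i, G.Adj (c i) (c (i + 1))) ∧
            Set.InjOn c (Set.Iio m)) :
    (k * Nat.card V + (g - 1) * (Nat.card V * k ^ 2)
        ≤ k * Nat.card V ^ 2 + (g - 2) * transTriangles G) ∧
    ((g - 2) * transTriangles G < k * Nat.card V → k * (g - 1) + 1 ≤ Nat.card V) := by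
  classical
  haveI := Fintype.ofFinite V
  have hg2 : 2 ≤ g := by
    rcases Nat.lt_or_ge g 2 with h | h
    · have hg1 : g = 1 := by omega
      subst hg1
      obtain ⟨c, h1, h2, _⟩ := hex
      exfalso
      have := h2 0
      rw [show c (0 + 1) = c 0 from h1 0] at this
      exact hloop _ this
    · exact h
  have hT : transTriangles G
      = ∑ x, ∑ y, ∑ z, if G.Adj x y ∧ G.Adj y z ∧ G.Adj x z then 1 else 0 := by
    unfold transTriangles
    rw [Nat.card_eq_fintype_card, Fintype.card_subtype, Finset.card_filter,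
      Fintype.sum_prod_type]
    refine Finset.sum_congr rfl fun x _ => ?_
    rw [Fintype.sum_prod_type]
  have hout' : ∀ x, (∑ y, if G.Adj x y then 1 else 0) = k := by
    intro x
    rw [← hout x, Nat.card_eq_fintype_card, Fintype.card_subtype, Finset.card_filter]
  have hin' : ∀ y, (∑ x, if G.Adj x y then 1 else 0) = k := by
    intro y
    rw [← hin y, Nat.card_eq_fintype_card, Fintype.card_subtype, Finset.card_filter]
  have h1 := Helper531.BCW.main_ineq G.Adj k g hg2 hloop
    (by intro x; convert hout' x) (by intro x; convert hin' x) hno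
  have h2 : k * Nat.card V + (g - 1) * (Nat.card V * k ^ 2)
        ≤ k * Nat.card V ^ 2 + (g - 2) * transTriangles G := by
    rw [hT, Nat.card_eq_fintype_card]
    convert h1
  refine ⟨h2, fun h3 => ?_⟩
  have hn : 0 < Nat.card V := by
    rcases Nat.eq_zero_or_pos (Nat.card V) with h0 | h0
    · rw [h0] at h3
      omega
    · exact h0
  have h4 : (g - 1) * (Nat.card V * k ^ 2) < k * Nat.card V ^ 2 := by omega
  have h5 : (k * Nat.card V) * (k * (g - 1)) < (k * Nat.card V) * Nat.card V := by
    calc (k * Nat.card V) * (k * (g - 1)) = (g - 1) * (Nat.card V * k ^ 2) := by ring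
      _ < k * Nat.card V ^ 2 := h4
      _ = (k * Nat.card V) * Nat.card V := by ring
  exact Nat.lt_of_mul_lt_mul_left h5

end Pool.Agent.Results.MP_83608f_co.FewTransitiveTriangles
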